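import Pool.Agent.TH655.HM.Wir
import Pool.Agent.H528R2.DioCore
import Pool.Agent.TH255.HC.Loc
import Pool.Agent.TH255.HC.Gap

/-!
# A Diophantine relation with height comparisons
-/

set_option autoImplicit false

namespace Pool.Agent.TH655.HM

open Pool.Agent.NPC Pool.Agent.H528R2 Pool.Agent.H528R2.Dio MvPolynomial
open Pool.Agent.TH255.HC (H Uni Tol DH)

/-! ### closure properties -/

theorem pf_int (z : ℤ) : PF (fun _ => (z : ℚ)) := by
  obtain ⟨n, rfl | rfl⟩ := z.eq_nat_or_neg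
  · obtain ⟨t, ht⟩ := PF.nat n
    exact ⟨t, fun v => by rw [ht]; simp⟩
  · obtain ⟨t, ht⟩ := (PF.nat n).neg
    exact ⟨t, fun v => by rw [ht]; simp⟩

theorem pf_aeval {n : ℕ} (p : MvPolynomial (Fin n) ℤ) (g : Fin n → ℕ) :
    PF (fun v => aeval (fun i => v (g i)) p) := by
  induction p using MvPolynomial.induction_on with
  | C a =>
    obtain ⟨t, ht⟩ := pf_int a
    exact ⟨t, fun v => by rw [ht]; simp⟩
  | add p q hp hq =>
    obtain ⟨t, ht⟩ := hp.add hq
    exact ⟨t, fun v => by rw [ht]; simp⟩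
  | mul_X p i hp =>
    obtain ⟨t, ht⟩ := hp.mul (PF.var (g i))
    exact ⟨t, fun v => by rw [ht]; simp⟩

theorem dq_const (k : ℕ) (q : ℚ) : DQ (fun v => v k = q) := by
  refine (DQ.eq ((pf_int q.den).mul (PF.var k)) (pf_int q.num)).congr fun v => ?_
  have hd : (q.den : ℚ) ≠ 0 := by exact_mod_cast q.den_nz
  have hq : (q.num : ℚ) = q.den * q := by rw [mul_comm]; exact (Rat.mul_den_eq_num q).symm
  rw [hq]
  push_cast
  exact (mul_right_inj' hd).symm

theorem DQ.true : DQ (fun _ => True) := (DQ.eq PF.zero PF.zero).congr fun _ => by simp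

theorem dq_all {α : Type*} (l : List α) (P : α → (ℕ → ℚ) → Prop) (h : ∀ a, DQ (P a)) :
    DQ (fun v => ∀ a ∈ l, P a v) := by
  induction l with
  | nil => exact DQ.true.congr fun v => by simp
  | cons a l ih =>
    refine ((h a).and ih).congr fun v => ?_
    simp

/-- moving `N` universal variables to the existential ones -/
def gN (N n : ℕ) : ℕ :=
  if n % 2 = 0 then (if n / 2 < N then 2 * (n / 2) + 1 else n - 2 * N) else n + 2 * N

theorem dq_exN (N : ℕ) {R : (ℕ → ℚ) → Prop} (h : DQ R) :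
    DQ (fun v => ∃ y : ℕ → ℚ, R (fun n => if n < N then y n else v (n - N))) := by
  obtain ⟨t, ht⟩ := h
  refine ⟨ren (gN N) t, fun v => ?_⟩
  have key : ∀ u : ℕ → ℚ, evalQ (mix v u) (ren (gN N) t) =
      evalQ (mix (fun n => if n < N then u n else v (n - N)) (fun n => u (n + N))) t := by
    intro u
    rw [evalQ_ren]
    congr 1
    funext n
    obtain ⟨m, rfl | rfl⟩ : ∃ m, n = 2 * m ∨ n = 2 * m + 1 := ⟨n / 2, by omega⟩
    · rw [mix_even, gN, if_pos (by omega), show 2 * m / 2 = m by omega]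
      by_cases hm : m < N
      · rw [if_pos hm, if_pos hm, mix_odd]
      · rw [if_neg hm, if_neg hm, show 2 * m - 2 * N = 2 * (m - N) by omega, mix_even]
    · rw [mix_odd, gN, if_neg (by omega), show 2 * m + 1 + 2 * N = 2 * (m + N) + 1 by ring,
        mix_odd]
  constructor
  · rintro ⟨y, hy⟩
    obtain ⟨u, hu⟩ := (ht _).1 hy
    refine ⟨fun n => if n < N then y n else u (n - N), ?_⟩
    rw [key]
    have e1 : (fun n => if n < N then (if n < N then y n else u (n - N)) else v (n - N)) =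
        (fun n => if n < N then y n else v (n - N)) := by
      funext n
      by_cases hn : n < N <;> simp [hn]
    have e2 : (fun n => if n + N < N then y (n + N) else u (n + N - N)) = u := by
      funext n
      simp
    rw [e1, e2]
    exact hu
  · rintro ⟨u, hu⟩
    rw [key] at hu
    exact ⟨u, (ht _).2 ⟨_, hu⟩⟩

/-! ### coarse comparisons of heights -/

/-- coarse comparisons of heights on an interval -/
def Crs (a b : ℚ) (C : ℕ) (A δ : ℝ) (R : ℚ → ℚ → Prop) : Prop :=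
  ∀ s ∈ Set.Ioo a b, ∀ t ∈ Set.Ioo a b, (C * H s ≤ H t → R s t) ∧
    (R s t → Real.log (H s) ≤ Real.log (H t) + A * (1 + Real.log (H t)) ^ δ)

theorem base (C : ℕ) (A δ : ℝ) (hδ : δ < 1 / 2) (a b : ℚ) (hab : a < b) :
    ∃ (n : ℕ) (p : MvPolynomial (Fin (n + 1)) ℤ) (T : List (Fin (n + 1) × Fin (n + 1))),
      (∀ c : ℕ, Uni c → ∃ y : Fin (n + 1) → ℚ, y 0 = c ∧ aeval y p = 0 ∧ ∀ s ∈ T,
        y s.1 ∈ Set.Ioo a b ∧ y s.2 ∈ Set.Ioo a b ∧ (C + 1) * H (y s.1) ≤ H (y s.2)) ∧
      ∀ R, Crs a b C A δ R → ∀ c : ℕ, (∃ y : Fin (n + 1) → ℚ, y 0 = c ∧ aeval y p = 0 ∧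
        ∀ s ∈ T, R (y s.1) (y s.2)) → Uni c := by
  have hpos : ∀ y : ℚ, 0 ≤ (1 + Real.log (H y)) ^ δ := fun y =>
    Real.rpow_nonneg (by
      have : (1 : ℝ) ≤ H y := by exact_mod_cast TH255.HC.H_ge_one y
      have := Real.log_nonneg this
      linarith) _
  have hA : ∀ y : ℚ, A * (1 + Real.log (H y)) ^ δ ≤ |A| * (1 + Real.log (H y)) ^ δ := fun y =>
    mul_le_mul_of_nonneg_right (le_abs_self A) (hpos y)
  have hlog : ∀ x y : ℚ, (C + 1) * H x ≤ H y → Real.log (H x) ≤ Real.log (H y) := by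
    intro x y hxy
    apply Real.log_le_log
    · exact_mod_cast TH255.HC.H_ge_one x
    · have : H x ≤ H y := by nlinarith [Nat.zero_le (C * H x)]
      exact_mod_cast this
  obtain ⟨n, p, S, hS⟩ := TH255.HC.final_loc (Q := fun x => ∃ c : ℕ, x = c ∧ Uni c)
    (fun τ => TH255.HC.dh_re TH255.HC.uni_re) a b hab (C + 1) |A| δ hδ
  refine ⟨n, p, S.toList, fun c hc => ?_, fun R hR c hy => ?_⟩
  · obtain ⟨y, h0, hp, hs⟩ := (hS (fun x y => x ∈ Set.Ioo a b ∧ y ∈ Set.Ioo a b ∧
      (C + 1) * H x ≤ H y) (fun x y hx hy h => ⟨hx, hy, by exact_mod_cast h⟩)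
      (fun x y hx hy h => by
        have h1 := hlog x y h.2.2
        have h2 : 0 ≤ |A| * (1 + Real.log (H y)) ^ δ := mul_nonneg (abs_nonneg _) (hpos y)
        linarith) c).1 ⟨c, rfl, hc⟩
    exact ⟨y, h0, hp, fun s hs' => hs s (Finset.mem_toList.1 hs')⟩
  · obtain ⟨y, h0, hp, hs⟩ := hy
    obtain ⟨c', hc', hU⟩ := (hS R (fun x y hx hy h => (hR x hx y hy).1 (by
        have h' : (C + 1) * H x ≤ H y := by exact_mod_cast h
        nlinarith [Nat.zero_le (H x)]))
      (fun x y hx hy h => ((hR x hx y hy).2 h).trans (by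
        have := hA y
        linarith)) c).2 ⟨y, h0, hp, fun s hs' => hs s (Finset.mem_toList.2 hs')⟩
    have : c = c' := by exact_mod_cast hc'
    rw [this]
    exact hU

/-- rational numbers of large height in an interval -/
theorem exists_large (a b : ℚ) (hab : a < b) (N : ℕ) : ∃ s ∈ Set.Ioo a b, N < H s := by
  by_contra hc
  push Not at hc
  have h1 : (Set.Ioo a b).Infinite := Set.Ioo_infinite hab
  apply h1
  have h2 : ((fun q : ℤ × ℤ => (q.1 : ℚ) / (q.2 : ℚ)) ''
      (Set.Icc (-(N : ℤ)) N ×ˢ Set.Icc (-(N : ℤ)) N)).Finite :=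
    ((Set.finite_Icc _ _).prod (Set.finite_Icc _ _)).image _
  refine h2.subset fun s hs => ?_
  have h3 := hc s hs
  have h4 : s.num.natAbs ≤ N := (le_max_left _ _).trans h3
  have h5 : s.den ≤ N := (le_max_right _ _).trans h3
  refine ⟨(s.num, s.den), ⟨⟨?_, ?_⟩, ⟨?_, ?_⟩⟩, ?_⟩
  · simp only; omega
  · simp only; omega
  · simp only; omega
  · simp only; omega
  · simp only
    exact_mod_cast Rat.num_div_den s

/-- numbers which no coarse comparison compares -/
theorem exists_bad (A δ : ℝ) (a b : ℚ) (hab : a < b) (t : ℚ) :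
    ∃ s ∈ Set.Ioo a b, Real.log (H t) + A * (1 + Real.log (H t)) ^ δ < Real.log (H s) := by
  obtain ⟨N, hN⟩ := exists_nat_gt (Real.exp (Real.log (H t) + A * (1 + Real.log (H t)) ^ δ))
  obtain ⟨s, hs, hsN⟩ := exists_large a b hab N
  refine ⟨s, hs, ?_⟩
  have h1 : (N : ℝ) < H s := by exact_mod_cast hsN
  rw [Real.lt_log_iff_exp_lt (by
    have : (1 : ℝ) ≤ H s := by exact_mod_cast TH255.HC.H_ge_one s
    linarith)]
  linarith

/-! ### the relation -/

/-- The relation: values `x 1, x 2, …` of the compared coordinates of a solution, or a trivial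
solution which no coarse comparison accepts. -/
def Rel {n : ℕ} (p : MvPolynomial (Fin (n + 1)) ℤ) (T : List (Fin (n + 1) × Fin (n + 1)))
    (s₀ s₁ t₀ : ℚ) (x : ℕ → ℚ) : Prop :=
  ((∃ y : ℕ → ℚ, y 0 = x 0 ∧ aeval (fun i : Fin (n + 1) => y i) p = 0 ∧
      ∀ q ∈ T.zipIdx, x (2 * q.2 + 1) = y q.1.1 ∧ x (2 * q.2 + 2) = y q.1.2) ∧
    x (2 * T.length + 1) = t₀ ∧ x (2 * T.length + 2) = s₁) ∨
  ((∀ j ∈ List.range (2 * T.length), x (j + 1) = t₀) ∧
    x (2 * T.length + 1) = s₀ ∧ x (2 * T.length + 2) = t₀)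

theorem dq_Rel {n : ℕ} (p : MvPolynomial (Fin (n + 1)) ℤ)
    (T : List (Fin (n + 1) × Fin (n + 1))) (s₀ s₁ t₀ : ℚ) : DQ (Rel p T s₀ s₁ t₀) := by
  unfold Rel
  refine DQ.or ((?_ : DQ _).and ((dq_const _ _).and (dq_const _ _)))
    ((dq_all _ _ fun j => dq_const _ _).and ((dq_const _ _).and (dq_const _ _)))
  have h := dq_exN (n + 1) (R := fun z => z 0 = z (n + 1) ∧
    aeval (fun i : Fin (n + 1) => z i) p = 0 ∧
    ∀ q ∈ T.zipIdx, z (n + 1 + (2 * q.2 + 1)) = z q.1.1 ∧ z (n + 1 + (2 * q.2 + 2)) = z q.1.2)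
    ((DQ.eq (PF.var _) (PF.var _)).and ((DQ.eq (pf_aeval p _) PF.zero).and
      (dq_all _ _ fun q => (DQ.eq (PF.var _) (PF.var _)).and (DQ.eq (PF.var _) (PF.var _)))))
  refine h.congr fun x => ?_
  have e1 : ∀ y : ℕ → ℚ, (fun i : Fin (n + 1) => if (i : ℕ) < n + 1 then y i else
      x (i - (n + 1))) = fun i : Fin (n + 1) => y i := by
    intro y
    funext i
    rw [if_pos i.2]
  constructor
  · rintro ⟨y, h0, hp, hq⟩
    refine ⟨y, ?_, ?_, ?_⟩
    · simpa using h0
    · simp only [e1]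
      exact hp
    · intro q hq'
      obtain ⟨h1, h2⟩ := hq q hq'
      simp only [Fin.is_lt, if_true]
      rw [if_neg (by omega), if_neg (by omega), Nat.add_sub_cancel_left, Nat.add_sub_cancel_left]
      exact ⟨h1, h2⟩
  · rintro ⟨y, h0, hp, hq⟩
    refine ⟨y, ?_, ?_, ?_⟩
    · simpa using h0
    · simp only [e1] at hp
      exact hp
    · intro q hq'
      obtain ⟨h1, h2⟩ := hq q hq'
      simp only [Fin.is_lt, if_true] at h1 h2
      rw [if_neg (by omega), Nat.add_sub_cancel_left] at h1 h2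
      exact ⟨h1, h2⟩

theorem Rel.congr {n : ℕ} {p : MvPolynomial (Fin (n + 1)) ℤ}
    {T : List (Fin (n + 1) × Fin (n + 1))} {s₀ s₁ t₀ : ℚ} {x x' : ℕ → ℚ}
    (hx : ∀ i < 2 * (T.length + 1) + 1, x i = x' i) (h : Rel p T s₀ s₁ t₀ x) :
    Rel p T s₀ s₁ t₀ x' := by
  rcases h with ⟨⟨y, h0, hp, hq⟩, h1, h2⟩ | ⟨hq, h1, h2⟩
  · refine Or.inl ⟨⟨y, ?_, hp, fun q hq' => ?_⟩, ?_, ?_⟩
    · rw [← hx 0 (by omega)]
      exact h0
    · have hlt : q.2 < T.length := by
        have := List.mem_zipIdx hq'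
        omega
      rw [← hx _ (by omega), ← hx _ (by omega)]
      exact hq q hq'
    · rw [← hx _ (by omega)]
      exact h1
    · rw [← hx _ (by omega)]
      exact h2
  · refine Or.inr ⟨fun j hj => ?_, ?_, ?_⟩
    · rw [← hx _ (by have := List.mem_range.1 hj; omega)]
      exact hq j hj
    · rw [← hx _ (by omega)]
      exact h1
    · rw [← hx _ (by omega)]
      exact h2

theorem exists_rel (C : ℕ) (A δ : ℝ) (hδ : δ < 1 / 2) (a b : ℚ) (hab : a < b) :
    ∃ (r : ℕ) (P : (Fin (2 * r + 1) → ℚ) → Prop), DioQ (2 * r + 1) P ∧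
      (∀ c : ℕ, ∃ x : ℕ → ℚ, x 0 = c ∧ P (fun i => x i) ∧
        ∀ j < 2 * r, x (j + 1) ∈ Set.Ioo a b) ∧
      (∀ c : ℕ, Uni c → ∃ x : ℕ → ℚ, x 0 = c ∧ P (fun i => x i) ∧
        (∀ j < 2 * r, x (j + 1) ∈ Set.Ioo a b) ∧
        ∀ i < r, C * H (x (2 * i + 1)) ≤ H (x (2 * i + 2))) ∧
      (∀ R, Crs a b C A δ R → ∀ c : ℕ, ∀ x : ℕ → ℚ, x 0 = c → P (fun i => x i) →
        (∀ i < r, R (x (2 * i + 1)) (x (2 * i + 2))) → Uni c) := by
  obtain ⟨n, p, T, hU, hR⟩ := base C A δ hδ a b hab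
  obtain ⟨t₀, ht₀⟩ : ∃ t, t ∈ Set.Ioo a b := ⟨(a + b) / 2, by constructor <;> linarith⟩
  obtain ⟨s₀, hs₀, hbad⟩ := exists_bad A δ a b hab t₀
  obtain ⟨s₁, hs₁, hlarge⟩ := exists_large a b hab (C * H t₀)
  let P : (Fin (2 * (T.length + 1) + 1) → ℚ) → Prop := fun z =>
    Rel p T s₀ s₁ t₀ (fun i => if h : i < 2 * (T.length + 1) + 1 then z ⟨i, h⟩ else 0)
  have hP : ∀ x : ℕ → ℚ, P (fun i => x i) ↔ Rel p T s₀ s₁ t₀ x := by
    intro x
    constructor
    · exact Rel.congr fun i hi => by simp only [dif_pos hi]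
    · exact Rel.congr fun i hi => by simp only [dif_pos hi]
  refine ⟨T.length + 1, P, Dio.DQ.dioQ ((dq_Rel p T s₀ s₁ t₀).congr hP), fun c => ?_,
    fun c hc => ?_, fun R hR' c x h0 hx hRx => ?_⟩
  · let x : ℕ → ℚ := fun i => if i = 0 then (c : ℚ) else if i = 2 * T.length + 1 then s₀ else t₀
    refine ⟨x, by simp [x], (hP x).2 (Or.inr ⟨fun j hj => ?_, ?_, ?_⟩), fun j _ => ?_⟩
    · have := List.mem_range.1 hj
      simp only [x]
      rw [if_neg (by omega), if_neg (by omega)]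
    · simp [x]
    · simp [x]
    · simp only [x]
      rw [if_neg (by omega)]
      split_ifs
      · exact hs₀
      · exact ht₀
  · obtain ⟨y, hy0, hyp, hyT⟩ := hU c hc
    have hn : 0 < n + 1 := Nat.succ_pos n
    let Y : ℕ → ℚ := fun i => if h : i < n + 1 then y ⟨i, h⟩ else 0
    have hY : ∀ i : Fin (n + 1), Y i = y i := fun i => by simp only [Y, dif_pos i.2]
    let x : ℕ → ℚ := fun i => if i = 0 then (c : ℚ) else
      if h : (i - 1) / 2 < T.length then (if (i - 1) % 2 = 0 then y (T[(i - 1) / 2]).1 else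
        y (T[(i - 1) / 2]).2) else if (i - 1) % 2 = 0 then t₀ else s₁
    have hx1 : ∀ i (h : i < T.length), x (2 * i + 1) = y (T[i]).1 := by
      intro i h
      have e1 : (2 * i + 1 - 1) / 2 = i := by omega
      have e2 : (2 * i + 1 - 1) % 2 = 0 := by omega
      simp only [x]
      rw [if_neg (by omega), dif_pos (by omega), if_pos e2]
      simp only [e1]
    have hx2 : ∀ i (h : i < T.length), x (2 * i + 2) = y (T[i]).2 := by
      intro i h
      have e1 : (2 * i + 2 - 1) / 2 = i := by omega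
      have e2 : ¬ (2 * i + 2 - 1) % 2 = 0 := by omega
      simp only [x]
      rw [if_neg (by omega), dif_pos (by omega), if_neg e2]
      simp only [e1]
    have hx3 : x (2 * T.length + 1) = t₀ := by
      simp only [x]
      rw [if_neg (by omega), dif_neg (by omega), if_pos (by omega)]
    have hx4 : x (2 * T.length + 2) = s₁ := by
      simp only [x]
      rw [if_neg (by omega), dif_neg (by omega), if_neg (by omega)]
    refine ⟨x, by simp [x], (hP _).2 (Or.inl ⟨⟨Y, ?_, ?_, ?_⟩, hx3, hx4⟩), ?_, ?_⟩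
    · have := hY 0
      simp only [Fin.val_zero] at this
      rw [this, hy0]
      simp [x]
    · simp only [hY]
      exact hyp
    · intro q hq
      obtain ⟨h1, h2⟩ := List.mem_zipIdx' hq
      rw [hx1 _ h1, hx2 _ h1, ← h2]
      exact ⟨(hY _).symm, (hY _).symm⟩
    · intro j hj
      obtain ⟨i, rfl | rfl⟩ : ∃ i, j = 2 * i ∨ j = 2 * i + 1 := ⟨j / 2, by omega⟩
      · rcases Nat.lt_or_ge i T.length with hi | hi
        · rw [hx1 i hi]
          exact (hyT _ (List.getElem_mem hi)).1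
        · have : i = T.length := by omega
          rw [this, hx3]
          exact ht₀
      · rcases Nat.lt_or_ge i T.length with hi | hi
        · rw [hx2 i hi]
          exact (hyT _ (List.getElem_mem hi)).2.1
        · have : i = T.length := by omega
          rw [this, hx4]
          exact hs₁
    · intro i hi
      rcases Nat.lt_or_ge i T.length with hi' | hi'
      · rw [hx1 i hi', hx2 i hi']
        have := (hyT _ (List.getElem_mem hi')).2.2
        nlinarith [Nat.zero_le (H (y (T[i]).1))]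
      · have : i = T.length := by omega
        rw [this, hx3, hx4]
        exact hlarge.le
  · rcases (hP x).1 hx with ⟨⟨y, hy0, hyp, hyT⟩, -, -⟩ | ⟨-, h1, h2⟩
    · refine hR R hR' c ⟨fun i => y i, ?_, hyp, fun s hs => ?_⟩
      · simp only [Fin.val_zero]
        rw [hy0, h0]
      · obtain ⟨i, hi, rfl⟩ := List.mem_iff_getElem.1 hs
        have h1 := hRx i (by omega)
        obtain ⟨h2, h3⟩ := hyT (T[i], i) (List.mk_mem_zipIdx_iff_getElem?.2
          (List.getElem?_eq_getElem hi))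
        simp only at h2 h3
        rw [h2, h3] at h1
        exact h1
    · exfalso
      have h3 := hRx T.length (by omega)
      rw [h1, h2] at h3
      have h4 := (hR' s₀ hs₀ t₀ ht₀).2 h3
      linarith

end Pool.Agent.TH655.HM
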