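import Pool.Agent.TH655.HM.Wir

/-!
# The marked elements of the matroid
-/

set_option autoImplicit false

namespace Pool.Agent.TH655.HM

open Pool.Agent.NPC Pool.Agent.H881R2.Mat Pool.Agent.H528R5
open Pool.Agent.TH588.MX (Cfg cr crw exists_missing small_or_triple rep_of_cfg cfg_of_rep
  wires_of_cfg cfg_of_wires)

/-! ### positions -/

/-- the labels of the three gadgets of the variable `i` -/
def blk (i k : ℕ) : List Lab :=
  glabs (false, wv i 2, wv i 3, wv i 4) k ++ (glabs (false, wv i 0, wv i 3, wv i 5) (k + 1) ++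
    glabs (false, wv i 4, wv i 1, wv i 5) (k + 2))

theorem blk_length (i k : ℕ) : (blk i k).length = 45 := rfl

theorem blk_cons (i k : ℕ) : ∃ L, blk i k = pu (wv i 2) :: pr (wv i 2) :: L := ⟨_, rfl⟩

theorem zip_ext1 (i k : ℕ) (T : List Gad) :
    ((ext1 i ++ T).zipIdx k).flatMap (fun q => glabs q.1 q.2) =
      blk i k ++ (T.zipIdx (k + 3)).flatMap (fun q => glabs q.1 q.2) := by
  simp [ext1, blk, List.zipIdx_cons, List.flatMap_cons, List.append_assoc]

theorem getElem_blocks (T : List Gad) : ∀ (L : List ℕ) (k j : ℕ) (hj : j < L.length),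
    (((L.flatMap (fun j => ext1 (j + 1)) ++ T).zipIdx k).flatMap
      (fun q => glabs q.1 q.2))[45 * j]? = some (pu (wv (L[j] + 1) 2)) ∧
    (((L.flatMap (fun j => ext1 (j + 1)) ++ T).zipIdx k).flatMap
      (fun q => glabs q.1 q.2))[45 * j + 1]? = some (pr (wv (L[j] + 1) 2)) := by
  intro L
  induction L with
  | nil => intro k j hj; exact absurd hj (by simp)
  | cons i L ih =>
    intro k j hj
    rw [List.flatMap_cons, List.append_assoc, zip_ext1]
    cases j with
    | zero =>
      obtain ⟨L', hL'⟩ := blk_cons (i + 1) k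
      rw [hL']
      simp
    | succ j =>
      have h := ih (k + 3) j (by simpa using hj)
      rw [List.getElem?_append_right (by rw [blk_length]; omega),
        List.getElem?_append_right (by rw [blk_length]; omega), blk_length,
        show 45 * (j + 1) - 45 = 45 * j by omega, show 45 * (j + 1) + 1 - 45 = 45 * j + 1 by omega]
      simpa using h

theorem labs_pos {m : ℕ} (S : List ER.Con) {j : ℕ} (hj : j < m) :
    (labs (sysM m S))[4 + 45 * j]? = some (pu (wv (j + 1) 2)) ∧
      (labs (sysM m S))[5 + 45 * j]? = some (pr (wv (j + 1) 2)) := by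
  have h := getElem_blocks (toW S) (List.range m) 0 j (by simpa using hj)
  have e : labs (sysM m S) = [pY, pO, pE, pX] ++
      (((List.range m).flatMap (fun j => ext1 (j + 1)) ++ toW S).zipIdx 0).flatMap
        (fun q => glabs q.1 q.2) := rfl
  rw [e, List.getElem?_append_right (by simp),
    List.getElem?_append_right (by simp only [List.length_cons, List.length_nil]; omega)]
  have e1 : 4 + 45 * j - [pY, pO, pE, pX].length = 45 * j := by simp
  have e2 : 5 + 45 * j - [pY, pO, pE, pX].length = 45 * j + 1 := by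
    have : [pY, pO, pE, pX].length = 4 := rfl
    omega
  rw [e1, e2]
  simpa using h

theorem lt_u {m : ℕ} (S : List ER.Con) {j : ℕ} (hj : j < m) :
    4 + 45 * j < (labs (sysM m S)).length := by
  by_contra h
  have h1 := (labs_pos S hj).1
  rw [List.getElem?_eq_none (by omega)] at h1
  exact absurd h1 (by simp)

theorem lt_r {m : ℕ} (S : List ER.Con) {j : ℕ} (hj : j < m) :
    5 + 45 * j < (labs (sysM m S)).length := by
  by_contra h
  have h1 := (labs_pos S hj).2
  rw [List.getElem?_eq_none (by omega)] at h1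
  exact absurd h1 (by simp)

/-- the index of `pu (wv (j + 1) 2)` -/
def ju {m : ℕ} (S : List ER.Con) {j : ℕ} (hj : j < m) : Fin (labs (sysM m S)).length :=
  ⟨4 + 45 * j, lt_u S hj⟩
/-- the index of `pr (wv (j + 1) 2)` -/
def jr {m : ℕ} (S : List ER.Con) {j : ℕ} (hj : j < m) : Fin (labs (sysM m S)).length :=
  ⟨5 + 45 * j, lt_r S hj⟩

theorem labs_ju {m : ℕ} (S : List ER.Con) {j : ℕ} (hj : j < m) :
    (labs (sysM m S))[ju S hj] = pu (wv (j + 1) 2) := by
  have h := (labs_pos S hj).1
  rw [List.getElem?_eq_getElem (lt_u S hj)] at h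
  exact Option.some.inj h

theorem labs_jr {m : ℕ} (S : List ER.Con) {j : ℕ} (hj : j < m) :
    (labs (sysM m S))[jr S hj] = pr (wv (j + 1) 2) := by
  have h := (labs_pos S hj).2
  rw [List.getElem?_eq_getElem (lt_r S hj)] at h
  exact Option.some.inj h

/-- the four marked elements of the variable `j + 1` -/
def mk {m : ℕ} (S : List ER.Con) {j : ℕ} (hj : j < m) : Fin 4 → Fin (labs (sysM m S)).length :=
  ![i3 (sysM m S), i0 (sysM m S), ju S hj, jr S hj]

section

variable {m : ℕ} {S : List ER.Con} {M : Matroid (Fin (labs (sysM m S)).length)}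
  (h : IsM (sysM m S) M)

include h

theorem ind_aux {i j k : Fin (labs (sysM m S)).length} (hij : i < j) (hjk : j < k)
    (hd : dep (sysM m S) (labs (sysM m S))[i] (labs (sysM m S))[j] (labs (sysM m S))[k] = false) :
    M.Indep {i, j} ∧ M.Indep {i, k} ∧ M.Indep {j, k} := by
  have h1 := (h.indep_triple hij hjk).2 hd
  refine ⟨h1.subset ?_, h1.subset ?_, h1.subset ?_⟩ <;>
  · intro x hx
    simp only [Set.mem_insert_iff, Set.mem_singleton_iff] at hx ⊢
    tauto

theorem dep_aux {i j k : Fin (labs (sysM m S)).length} (hij : i < j) (hjk : j < k)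
    (h1 : onR (labs (sysM m S))[i] = true) (h2 : onR (labs (sysM m S))[j] = true)
    (h3 : onR (labs (sysM m S))[k] = true) : ¬ M.Indep {i, j, k} := by
  rw [h.indep_triple hij hjk, Bool.not_eq_false, H881R2.Mat.dep_iff]
  exact Or.inr (Or.inr (Or.inr (Or.inl ⟨h1, h2, h3⟩)))

variable {n : ℕ} (hn : n < m)

theorem ind_pairs : ∀ i j : Fin 4, i ≠ j → M.Indep {mk S hn i, mk S hn j} := by
  have l1 : i1 (sysM m S) < ju S hn := by simp [i1, ju, Fin.lt_def]; omega
  have l2 : i1 (sysM m S) < jr S hn := by simp [i1, jr, Fin.lt_def]; omega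
  have l3 : i3 (sysM m S) < ju S hn := by simp [i3, ju, Fin.lt_def]; omega
  have l4 : i3 (sysM m S) < jr S hn := by simp [i3, jr, Fin.lt_def]; omega
  have l5 : ju S hn < jr S hn := by simp [ju, jr, Fin.lt_def]
  have a1 := ind_aux h (i := i0 (sysM m S)) (j := i1 (sysM m S)) (k := i3 (sysM m S)) (i0_lt _)
    (i1_lt _) (dep_basis _)
  have a2 := ind_aux h (i := i0 (sysM m S)) (j := i1 (sysM m S)) (k := ju S hn) (i0_lt _) l1
    (by rw [labs_ju]; exact TaskW.nd pY pO (pu _) (by exact (by decide : TaskW.ndK 0 1 4 = true)))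
  have a3 := ind_aux h (i := i0 (sysM m S)) (j := i1 (sysM m S)) (k := jr S hn) (i0_lt _) l2
    (by rw [labs_jr]; exact TaskW.nd pY pO (pr _) (by exact (by decide : TaskW.ndK 0 1 5 = true)))
  have a4 := ind_aux h (i := i1 (sysM m S)) (j := i3 (sysM m S)) (k := ju S hn) (i1_lt _) l3
    (by rw [labs_ju]; exact TaskW.nd pO pX (pu _) (by exact (by decide : TaskW.ndK 1 3 4 = true)))
  have a5 := ind_aux h (i := i1 (sysM m S)) (j := i3 (sysM m S)) (k := jr S hn) (i1_lt _) l4
    (by rw [labs_jr]; exact TaskW.nd pO pX (pr _) (by exact (by decide : TaskW.ndK 1 3 5 = true)))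
  have a6 := ind_aux h (i := i1 (sysM m S)) (j := ju S hn) (k := jr S hn) l1 l5
    (by rw [labs_ju, labs_jr]
        exact TaskW.nd pO (pu _) (pr _) (by exact (by decide : TaskW.ndK 1 4 5 = true)))
  intro i j hij
  fin_cases i <;> fin_cases j <;> first
    | exact absurd rfl hij
    | exact a1.2.1
    | (rw [Set.pair_comm]; exact a1.2.1)
    | exact a2.2.1
    | (rw [Set.pair_comm]; exact a2.2.1)
    | exact a3.2.1
    | (rw [Set.pair_comm]; exact a3.2.1)
    | exact a4.2.2
    | (rw [Set.pair_comm]; exact a4.2.2)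
    | exact a5.2.2
    | (rw [Set.pair_comm]; exact a5.2.2)
    | exact a6.2.2
    | (rw [Set.pair_comm]; exact a6.2.2)

theorem dep_compl (l : Fin 4) : ¬ M.Indep (mk S hn '' {x | x ≠ l}) := by
  have l0 : i0 (sysM m S) < i3 (sysM m S) := by simp [i0, i3, Fin.lt_def]
  have l1 : i0 (sysM m S) < ju S hn := by simp [i0, ju, Fin.lt_def]
  have l3 : i3 (sysM m S) < ju S hn := by simp [i3, ju, Fin.lt_def]; omega
  have l4 : i3 (sysM m S) < jr S hn := by simp [i3, jr, Fin.lt_def]; omega
  have l5 : ju S hn < jr S hn := by simp [ju, jr, Fin.lt_def]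
  have r0 : onR (labs (sysM m S))[i0 (sysM m S)] = true := rfl
  have r3 : onR (labs (sysM m S))[i3 (sysM m S)] = true := rfl
  have ru : onR (labs (sysM m S))[ju S hn] = true := by rw [labs_ju]; rfl
  have rr : onR (labs (sysM m S))[jr S hn] = true := by rw [labs_jr]; rfl
  have b1 := dep_aux h l0 l3 r0 r3 ru
  have b2 := dep_aux h l0 l4 r0 r3 rr
  have b3 := dep_aux h l1 l5 r0 ru rr
  have b4 := dep_aux h l3 l5 r3 ru rr
  have key : ∀ {i j k : Fin 4}, i ≠ l → j ≠ l → k ≠ l →
      ¬ M.Indep {mk S hn i, mk S hn j, mk S hn k} → ¬ M.Indep (mk S hn '' {x | x ≠ l}) := by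
    intro i j k hi hj hk hn' hI
    apply hn'
    refine hI.subset ?_
    intro x hx
    simp only [Set.mem_insert_iff, Set.mem_singleton_iff] at hx
    rcases hx with rfl | rfl | rfl
    · exact ⟨_, hi, rfl⟩
    · exact ⟨_, hj, rfl⟩
    · exact ⟨_, hk, rfl⟩
  fin_cases l
  · exact key (i := 1) (j := 2) (k := 3) (by decide) (by decide) (by decide) b3
  · exact key (i := 0) (j := 2) (k := 3) (by decide) (by decide) (by decide) b4
  · exact key (i := 1) (j := 0) (k := 3) (by decide) (by decide) (by decide) b2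
  · exact key (i := 1) (j := 0) (k := 2) (by decide) (by decide) (by decide) b1

theorem dep_triples (i j k : Fin 4) (hij : i ≠ j) (hik : i ≠ k) (hjk : j ≠ k) :
    ¬ M.Indep {mk S hn i, mk S hn j, mk S hn k} := by
  obtain ⟨l, hl⟩ := exists_missing i j k hij hik hjk
  intro hI
  refine dep_compl h hn l (hI.subset ?_)
  rintro x ⟨y, hy, rfl⟩
  rcases hl y hy with rfl | rfl | rfl <;> simp

omit h in
theorem mk_injective : Function.Injective (mk S hn) := by
  intro i j hij
  by_contra hne
  revert hij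
  fin_cases i <;> fin_cases j <;> first
    | exact absurd rfl hne
    | (simp [mk, i0, i3, ju, jr, Fin.ext_iff]; done)
    | (simp [mk, i0, i3, ju, jr, Fin.ext_iff]; omega)

theorem u24 (I : Set (Fin 4)) : M.Indep (mk S hn '' I) ↔ I.encard ≤ 2 := by
  rcases small_or_triple I with ⟨i, j, hij, hI⟩ | ⟨i, j, k, hij, hik, hjk, hI⟩
  · refine iff_of_true ?_ ?_
    · refine (ind_pairs h hn i j hij).subset ?_
      rw [← Set.image_pair]
      exact Set.image_mono hI
    · refine (Set.encard_le_encard hI).trans ?_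
      rw [Set.encard_pair hij]
  · refine iff_of_false ?_ ?_
    · intro hM
      refine dep_triples h hn i j k hij hik hjk (hM.subset ?_)
      have e : ({mk S hn i, mk S hn j, mk S hn k} : Set _) = mk S hn '' {i, j, k} := by
        rw [Set.image_insert_eq, Set.image_pair]
      rw [e]
      exact Set.image_mono hI
    · intro hle
      have h1 := (Set.encard_le_encard hI).trans hle
      rw [Set.encard_insert_of_notMem (by simp [hij, hik]), Set.encard_pair hjk] at h1
      exact absurd h1 (by decide)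

end

theorem eRank_of {G : List Gad} {M : Matroid (Fin (labs G).length)} (h : IsM G M) :
    M.eRank = 3 := by
  obtain ⟨B, hBase⟩ := M.exists_isBase
  obtain ⟨F, rfl, hc, -⟩ := h.base_finset hBase
  rw [← hBase.encard_eq_eRank, Set.encard_coe_eq_coe_finsetCard, hc]
  rfl

theorem bases_of {G : List Gad} {M : Matroid (Fin (labs G).length)} (h : IsM G M)
    (B : Set (Fin (labs G).length)) :
    M.IsBase B ↔ ∃ l ∈ (inst G).2, ∀ i : Fin (labs G).length, i ∈ B ↔ (i : ℕ) ∈ l := by
  classical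
  have hf : (B.toFinset : Set (Fin (labs G).length)) = B := by simp
  have h1 := (h.hB B.toFinset).1
  rw [hf] at h1
  rw [h1]
  simp [Listed]

/-! ### cross ratios -/

/-- `t` is the cross ratio of the vectors `x`, `y`, `u`, `p`: `u` and `p` are combinations of `x`
and `y` with coefficients `a`, `b` and `a'`, `b'`, and `t = (a * b') / (a' * b)`. -/
def HasCR (x y u p : Fin 3 → ℚ) (t : ℚ) : Prop :=
  ∃ a b a' b' : ℚ, u = a • x + b • y ∧ p = a' • x + b' • y ∧ a' * b ≠ 0 ∧
    t = (a * b') / (a' * b)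

theorem cr_eq {x y u p o : Fin 3 → ℚ} {t : ℚ} (h : HasCR x y u p t) (ho : det3 x y o ≠ 0) :
    cr x y u p o = t := by
  obtain ⟨a, b, a', b', rfl, rfl, h0, rfl⟩ := h
  have e1 : det3 x (a' • x + b' • y) o = b' * det3 x y o := by
    simp only [det3, Pi.add_apply, Pi.smul_apply, smul_eq_mul]; ring
  have e2 : det3 y (a • x + b • y) o = - (a * det3 x y o) := by
    simp only [det3, Pi.add_apply, Pi.smul_apply, smul_eq_mul]; ring
  have e3 : det3 x (a • x + b • y) o = b * det3 x y o := by
    simp only [det3, Pi.add_apply, Pi.smul_apply, smul_eq_mul]; ring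
  have e4 : det3 y (a' • x + b' • y) o = - (a' * det3 x y o) := by
    simp only [det3, Pi.add_apply, Pi.smul_apply, smul_eq_mul]; ring
  have hb : b ≠ 0 := right_ne_zero_of_mul h0
  have ha' : a' ≠ 0 := left_ne_zero_of_mul h0
  rw [cr, e1, e2, e3, e4]
  field_simp

/-- the vectors `v` represent the matroid `M` -/
def Reps {n : ℕ} (M : Matroid (Fin n)) (v : Fin n → Fin 3 → ℚ) : Prop :=
  ∀ J : Set (Fin n), M.Indep J ↔ LinearIndepOn ℚ v J

theorem wv_inj {i j : ℕ} (h : wv (i + 1) 2 = wv (j + 1) 2) : i = j := by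
  simp only [wv] at h
  omega

/-- an index for every label, with prescribed values on the marked labels -/
theorem exists_idx (m : ℕ) (S : List ER.Con) :
    ∃ idx : Lab → Fin (labs (sysM m S)).length,
      (∀ l ∈ labs (sysM m S), (labs (sysM m S))[idx l] = l) ∧ idx pX = i3 _ ∧ idx pY = i0 _ ∧
      ∀ (j : ℕ) (hj : j < m), idx (pu (wv (j + 1) 2)) = ju S hj ∧
        idx (pr (wv (j + 1) 2)) = jr S hj := by
  classical
  have key : ∀ l : Lab, ∃ i : Fin (labs (sysM m S)).length,
      (l ∈ labs (sysM m S) → (labs (sysM m S))[i] = l) ∧ (l = pX → i = i3 _) ∧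
      (l = pY → i = i0 _) ∧ (∀ (j : ℕ) (hj : j < m), l = pu (wv (j + 1) 2) → i = ju S hj) ∧
      (∀ (j : ℕ) (hj : j < m), l = pr (wv (j + 1) 2) → i = jr S hj) := by
    intro l
    by_cases h1 : l = pX
    · refine ⟨i3 _, fun _ => h1 ▸ rfl, fun _ => rfl, fun h => ?_, fun j hj h => ?_,
        fun j hj h => ?_⟩
      · rw [h1] at h; exact absurd h (by decide)
      · rw [h1] at h; simp [pX, pu] at h
      · rw [h1] at h; simp [pX, pr] at h
    by_cases h2 : l = pY
    · refine ⟨i0 _, fun _ => h2 ▸ rfl, fun h => absurd h h1, fun _ => rfl, fun j hj h => ?_,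
        fun j hj h => ?_⟩
      · rw [h2] at h; simp [pY, pu] at h
      · rw [h2] at h; simp [pY, pr] at h
    by_cases h3 : ∃ (j : ℕ) (_ : j < m), l = pu (wv (j + 1) 2)
    · obtain ⟨j, hj, h3⟩ := h3
      refine ⟨ju S hj, fun _ => by rw [h3, labs_ju], fun h => absurd h h1, fun h => absurd h h2,
        fun j' hj' h => ?_, fun j' hj' h => ?_⟩
      · rw [h3] at h
        simp only [pu, Prod.mk.injEq, true_and, and_true] at h
        have := wv_inj h
        subst this
        rfl
      · rw [h3] at h; simp [pu, pr] at h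
    by_cases h4 : ∃ (j : ℕ) (_ : j < m), l = pr (wv (j + 1) 2)
    · obtain ⟨j, hj, h4⟩ := h4
      refine ⟨jr S hj, fun _ => by rw [h4, labs_jr], fun h => absurd h h1, fun h => absurd h h2,
        fun j' hj' h => ?_, fun j' hj' h => ?_⟩
      · rw [h4] at h; simp [pu, pr] at h
      · rw [h4] at h
        simp only [pr, Prod.mk.injEq, true_and, and_true] at h
        have := wv_inj h
        subst this
        rfl
    refine ⟨if hl : l ∈ labs (sysM m S) then ⟨(labs (sysM m S)).idxOf l,
      List.idxOf_lt_length_of_mem hl⟩ else i0 _, fun hl => ?_, fun h => absurd h h1,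
      fun h => absurd h h2, fun j hj h => absurd ⟨j, hj, h⟩ h3, fun j hj h => absurd ⟨j, hj, h⟩ h4⟩
    simp only [dif_pos hl]
    exact List.getElem_idxOf (List.idxOf_lt_length_of_mem hl)
  choose idx a1 a2 a3 a4 a5 using key
  exact ⟨idx, a1, a2 _ rfl, a3 _ rfl, fun j hj => ⟨a4 _ j hj rfl, a5 _ j hj rfl⟩⟩

/-- from representations to solutions -/
theorem sol_of_rep {m : ℕ} {S : List ER.Con} {M : Matroid (Fin (labs (sysM m S)).length)}
    (h : IsM (sysM m S) M) {v : Fin (labs (sysM m S)).length → Fin 3 → ℚ} (hv : Reps M v)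
    {τ : ℕ → ℚ} (hτ : ∀ (j : ℕ) (hj : j < m), HasCR (v (i3 _)) (v (i0 _)) (v (ju S hj))
      (v (jr S hj)) (τ j)) :
    ∃ z : ℕ → ℚ, (∀ c ∈ S, H528R2.HoldsQ z c) ∧ ∀ j < m, z (j + 1) = τ j := by
  obtain ⟨idx, hidx, iX, iY, iur⟩ := exists_idx m S
  have hcfg := cfg_of_rep h hv hidx
  obtain ⟨w, hw, hcr⟩ := wires_of_cfg (distinct_sysM m S) hcfg
  obtain ⟨z, hz, hz1⟩ := soundM hw
  refine ⟨z, hz, fun j hj => ?_⟩
  have mu : pu (wv (j + 1) 2) ∈ labs (sysM m S) := by
    rw [← labs_ju S hj]; exact List.getElem_mem _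
  have mr : pr (wv (j + 1) 2) ∈ labs (sysM m S) := by
    rw [← labs_jr S hj]; exact List.getElem_mem _
  rw [hz1 j hj, hcr _ mu mr, crw]
  obtain ⟨e1, e2⟩ := iur j hj
  simp only [iX, iY, e1, e2]
  refine cr_eq (hτ j hj) ?_
  intro h0
  have h1 := (hcfg pX (TaskW.mX _) pY (TaskW.mY _) pO (TaskW.mO _)).1 (by
    simp only [iX, iY]
    exact h0)
  rw [TaskW.nd pX pY pO (by decide)] at h1
  exact absurd h1 (by decide)

/-- from solutions to representations -/
theorem rep_of_sol {m : ℕ} {S : List ER.Con} {M : Matroid (Fin (labs (sysM m S)).length)}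
    (h : IsM (sysM m S) M) {z : ℕ → ℚ} (hz : ∀ c ∈ S, H528R2.HoldsQ z c)
    (h01 : ∀ j < m, z (j + 1) ≠ 0 ∧ z (j + 1) ≠ 1) :
    ∃ v : Fin (labs (sysM m S)).length → Fin 3 → ℚ, Reps M v ∧ ∀ (j : ℕ) (hj : j < m),
      HasCR (v (i3 _)) (v (i0 _)) (v (ju S hj)) (v (jr S hj)) (z (j + 1)) := by
  obtain ⟨w, hw, hw1⟩ := completeM hz h01
  obtain ⟨p, hcfg, pX', pY', pO', hk⟩ := cfg_of_wires _ w hw
  refine ⟨fun i => p (labs (sysM m S))[i], rep_of_cfg h hcfg, fun j hj => ?_⟩
  obtain ⟨C, hu, hr⟩ := hk (wv (j + 1) 2)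
  have mu : pu (wv (j + 1) 2) ∈ labs (sysM m S) := by
    rw [← labs_ju S hj]; exact List.getElem_mem _
  have hC : C ≠ 0 := by
    rintro rfl
    have := (hcfg pX (TaskW.mX _) (pu (wv (j + 1) 2)) mu pO (TaskW.mO _)).1
      (by rw [pX', hu, pO']; simp [det3])
    rw [TaskW.nd pX (pu _) pO (by exact (by decide : TaskW.ndK 3 4 1 = true))] at this
    exact absurd this (by decide)
  have e3 : (labs (sysM m S))[i3 (sysM m S)] = pX := rfl
  have e0 : (labs (sysM m S))[i0 (sysM m S)] = pY := rfl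
  simp only [labs_ju, labs_jr, e3, e0, hu, hr, pX', pY', hw1 j hj]
  refine ⟨1, C, 1, C * z (j + 1), ?_, ?_, by simpa using hC, by field_simp⟩
  · funext i
    fin_cases i <;> simp
  · funext i
    fin_cases i <;> simp

end Pool.Agent.TH655.HM
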