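import Pool.Agent.TH588.MX.Sys

/-!
# Systems of wires with a wire for each of the variables `1, …, m`

Generalises `Pool.Agent.TH588.MX.Wir` (one variable) to `m` variables.
-/

set_option autoImplicit false

namespace Pool.Agent.TH655.HM

open Pool.Agent.NPC Pool.Agent.H881R2.Mat Pool.Agent.H528R2
open TaskA

/-- three gadgets: the wire `wv i 2` gets the value of the variable `i` -/
def ext1 (i : ℕ) : List Gad := [(false, wv i 2, wv i 3, wv i 4), (false, wv i 0, wv i 3, wv i 5),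
  (false, wv i 4, wv i 1, wv i 5)]

/-- the gadgets for all variables `1, …, m` -/
def extm (m : ℕ) : List Gad := (List.range m).flatMap (fun j => ext1 (j + 1))

/-- the system of wires of a system of constraints, with wires for the variables `1, …, m` -/
def sysM (m : ℕ) (S : List ER.Con) : List Gad := extm m ++ toW S

theorem mem_extm {m : ℕ} {d : Gad} : d ∈ extm m ↔ ∃ j < m, d ∈ ext1 (j + 1) := by
  simp [extm]

theorem distinct_sysM (m : ℕ) (S : List ER.Con) : Distinct (sysM m S) := by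
  intro d hd
  rcases List.mem_append.1 hd with hd | hd
  · obtain ⟨j, -, hd⟩ := mem_extm.1 hd
    simp only [ext1, List.mem_cons, List.not_mem_nil, or_false] at hd
    rcases hd with rfl | rfl | rfl <;> simp [wv]
  · exact distinct_toW S d hd

theorem soundM {m : ℕ} {S : List ER.Con} {w : ℕ → ℚ} (hw : ∀ d ∈ sysM m S, GOk w d) :
    ∃ v : ℕ → ℚ, (∀ c ∈ S, HoldsQ v c) ∧ ∀ j < m, v (j + 1) = w (wv (j + 1) 2) := by
  refine ⟨_, TH588.MX.holds_of_wires fun d hd => hw d (List.mem_append_right _ hd),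
    fun j hj => ?_⟩
  have hm : ∀ d ∈ ext1 (j + 1), GOk w d := fun d hd =>
    hw d (List.mem_append_left _ (mem_extm.2 ⟨j, hj, hd⟩))
  have h1 := gok_add (hm (false, wv (j + 1) 2, wv (j + 1) 3, wv (j + 1) 4) (by simp [ext1]))
  have h2 := gok_add (hm (false, wv (j + 1) 0, wv (j + 1) 3, wv (j + 1) 5) (by simp [ext1]))
  have h3 := gok_add (hm (false, wv (j + 1) 4, wv (j + 1) 1, wv (j + 1) 5) (by simp [ext1]))
  show w (wv (j + 1) 0) - w (wv (j + 1) 1) = w (wv (j + 1) 2)
  linarith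

theorem exists_zeta (x : ℚ) : ∃ ζ : ℚ, ζ ≠ 0 ∧ ζ ≠ 1 ∧ ζ ≠ x ∧ ζ ≠ -x ∧ ζ ≠ 1 - x ∧
    ζ ≠ x + tau x ∧ ζ ≠ -(x + tau x) ∧ ζ ≠ 1 - (x + tau x) ∧ ζ ≠ tau x - x := by
  obtain ⟨ζ, hζ⟩ := avoid [0, 1, x, -x, 1 - x, x + tau x, -(x + tau x), 1 - (x + tau x),
    tau x - x]
  simp only [List.mem_cons, List.not_mem_nil, or_false, forall_eq_or_imp, forall_eq] at hζ
  exact ⟨ζ, hζ⟩

/-- an auxiliary number -/
noncomputable def zeta (x : ℚ) : ℚ := (exists_zeta x).choose

theorem completeM {m : ℕ} {S : List ER.Con} {v : ℕ → ℚ} (hv : ∀ c ∈ S, HoldsQ v c)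
    (h : ∀ j < m, v (j + 1) ≠ 0 ∧ v (j + 1) ≠ 1) :
    ∃ w : ℕ → ℚ, (∀ d ∈ sysM m S, GOk w d) ∧ ∀ j < m, w (wv (j + 1) 2) = v (j + 1) := by
  set w : ℕ → ℚ := fun n => if n % 64 = 2 then v (n / 64) else
    if n % 64 = 3 then zeta (v (n / 64)) else
    if n % 64 = 4 then v (n / 64) + zeta (v (n / 64)) else
    if n % 64 = 5 then v (n / 64) + tau (v (n / 64)) + zeta (v (n / 64)) else val v S n with hwdef
  have hoff : ∀ n, n % 64 ≠ 2 → n % 64 ≠ 3 → n % 64 ≠ 4 → n % 64 ≠ 5 → w n = val v S n := by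
    intro n n1 n2 n3 n4
    simp only [hwdef]
    rw [if_neg n1, if_neg n2, if_neg n3, if_neg n4]
  have w0 : ∀ i, w (wv i 0) = v i + tau (v i) := by
    intro i
    rw [hoff _ (by simp only [wv]; omega) (by simp only [wv]; omega) (by simp only [wv]; omega)
      (by simp only [wv]; omega), val_wv0]
  have w1 : ∀ i, w (wv i 1) = tau (v i) := by
    intro i
    rw [hoff _ (by simp only [wv]; omega) (by simp only [wv]; omega) (by simp only [wv]; omega)
      (by simp only [wv]; omega), val_wv1]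
  have wc' : ∀ g j, j < 32 → w (wc g j) = uu v S g j := by
    intro g j hj
    rw [hoff _ (by simp only [wc]; omega) (by simp only [wc]; omega) (by simp only [wc]; omega)
      (by simp only [wc]; omega), val_wc _ _ _ _ hj]
  have e2 : ∀ i, w (wv i 2) = v i := by
    intro i
    have a1 : wv i 2 % 64 = 2 := by simp only [wv]; omega
    have a2 : wv i 2 / 64 = i := by simp only [wv]; omega
    simp only [hwdef, a1, a2, if_true]
  have e3 : ∀ i, w (wv i 3) = zeta (v i) := by
    intro i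
    have a1 : wv i 3 % 64 = 3 := by simp only [wv]; omega
    have a2 : wv i 3 / 64 = i := by simp only [wv]; omega
    simp only [hwdef, a1, a2]
    norm_num
  have e4 : ∀ i, w (wv i 4) = v i + zeta (v i) := by
    intro i
    have a1 : wv i 4 % 64 = 4 := by simp only [wv]; omega
    have a2 : wv i 4 / 64 = i := by simp only [wv]; omega
    simp only [hwdef, a1, a2]
    norm_num
  have e5 : ∀ i, w (wv i 5) = v i + tau (v i) + zeta (v i) := by
    intro i
    have a1 : wv i 5 % 64 = 5 := by simp only [wv]; omega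
    have a2 : wv i 5 / 64 = i := by simp only [wv]; omega
    simp only [hwdef, a1, a2]
    norm_num
  refine ⟨w, ?_, fun j _ => e2 _⟩
  intro d hd
  rcases List.mem_append.1 hd with hd | hd
  · obtain ⟨j, hj, hd⟩ := mem_extm.1 hd
    obtain ⟨h0, h1⟩ := h j hj
    obtain ⟨a1, a2, a3, a4⟩ := tau_spec (v (j + 1))
    obtain ⟨z1, z2, z3, z4, z5, z6, z7, z8, z9⟩ := (exists_zeta (v (j + 1))).choose_spec
    change zeta (v (j + 1)) ≠ 0 at z1
    change zeta (v (j + 1)) ≠ 1 at z2
    change zeta (v (j + 1)) ≠ v (j + 1) at z3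
    change zeta (v (j + 1)) ≠ -v (j + 1) at z4
    change zeta (v (j + 1)) ≠ 1 - v (j + 1) at z5
    change zeta (v (j + 1)) ≠ v (j + 1) + tau (v (j + 1)) at z6
    change zeta (v (j + 1)) ≠ -(v (j + 1) + tau (v (j + 1))) at z7
    change zeta (v (j + 1)) ≠ 1 - (v (j + 1) + tau (v (j + 1))) at z8
    change zeta (v (j + 1)) ≠ tau (v (j + 1)) - v (j + 1) at z9
    have s4 : v (j + 1) + zeta (v (j + 1)) ≠ 0 ∧ v (j + 1) + zeta (v (j + 1)) ≠ 1 :=
      ⟨fun h => z4 (by linarith), fun h => z5 (by linarith)⟩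
    have s5 : v (j + 1) + tau (v (j + 1)) + zeta (v (j + 1)) ≠ 0 ∧
        v (j + 1) + tau (v (j + 1)) + zeta (v (j + 1)) ≠ 1 :=
      ⟨fun h => z7 (by linarith), fun h => z8 (by linarith)⟩
    simp only [ext1, List.mem_cons, List.not_mem_nil, or_false] at hd
    rcases hd with rfl | rfl | rfl
    · apply gok_add_of <;> simp only [e2, e3, e4]
      · exact ⟨h0, h1⟩
      · exact ⟨z1, z2⟩
      · exact s4
      · exact fun h => z3 h.symm
    · apply gok_add_of <;> simp only [w0, e3, e5]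
      · exact ⟨a3, a4⟩
      · exact ⟨z1, z2⟩
      · exact s5
      · exact fun h => z6 h.symm
    · apply gok_add_of <;> simp only [e4, w1, e5]
      · exact s4
      · exact ⟨a1, a2⟩
      · exact s5
      · exact fun h => z9 (by linarith)
      · ring
  · obtain ⟨c, g, hg, hd⟩ := mem_toW.1 hd
    have hc : Loc v c := loc_of_holds (hv c (List.mem_iff_getElem?.2 ⟨g, hg⟩))
    exact uu_spec hg hc w w0 w1 (wc' g) d hd

/-! ### the parameter -/

open TH588.MX in
theorem sysC_of {m : ℕ} {R : (Fin (m + 1) → ℚ) → Prop} {S₀ : List ER.Con}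
    (hS : ∀ x, R x ↔ ∃ v : ℕ → ℚ, (∀ i : Fin (m + 1), v i = x i) ∧ ∀ c ∈ S₀, HoldsQ v c)
    {B c : ℕ} {v : ℕ → ℚ} (hv : ∀ d ∈ sysC S₀ B c, HoldsQ v d) :
    v 0 = c ∧ R (fun i => v i) := by
  refine ⟨chain_sound (fun d hd => hv d (List.mem_append_right _ hd)), ?_⟩
  rw [hS]
  exact ⟨v, fun _ => rfl, fun d hd => hv d (List.mem_append_left _ hd)⟩

open TH588.MX in
theorem of_sysC {m : ℕ} {R : (Fin (m + 1) → ℚ) → Prop} {S₀ : List ER.Con}
    (hS : ∀ x, R x ↔ ∃ v : ℕ → ℚ, (∀ i : Fin (m + 1), v i = x i) ∧ ∀ c ∈ S₀, HoldsQ v c) {B : ℕ}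
    (hBm : m + 1 ≤ B) (hB : ∀ c ∈ S₀, ∀ v v' : ℕ → ℚ, (∀ i < B, v i = v' i) → HoldsQ v c →
      HoldsQ v' c) {c : ℕ} {x : ℕ → ℚ} (h0 : x 0 = c) (hR : R (fun i => x i)) :
    ∃ v : ℕ → ℚ, (∀ d ∈ sysC S₀ B c, HoldsQ v d) ∧ ∀ i ≤ m, v i = x i := by
  obtain ⟨v, hx, hv⟩ := (hS _).1 hR
  let v' : ℕ → ℚ := fun i => if i < B then v i else if i = B then 1 else ((i - (B + 1) : ℕ) : ℚ)
  have hlt : ∀ i < B, v' i = v i := fun i hi => by simp [v', hi]
  have hBB : v' B = 1 := by simp [v']
  have hk : ∀ k, v' (B + 1 + k) = k := by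
    intro k
    have h1 : ¬ B + 1 + k < B := by omega
    have h2 : ¬ B + 1 + k = B := by omega
    have h3 : B + 1 + k - (B + 1) = k := by omega
    simp only [v', if_neg h1, if_neg h2, h3]
  have hxv : ∀ i ≤ m, v i = x i := fun i hi => hx ⟨i, by omega⟩
  have h00 : v' 0 = c := by
    rw [hlt 0 (by omega), hxv 0 (by omega), h0]
  refine ⟨v', fun d hd => ?_, fun i hi => by rw [hlt i (by omega), hxv i hi]⟩
  rcases List.mem_append.1 hd with hd | hd
  · exact hB d hd v v' (fun i hi => (hlt i hi).symm) (hv d hd)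
  · rcases List.mem_append.1 hd with hd | hd
    · simp only [List.mem_cons, List.not_mem_nil, or_false] at hd
      have h10 := hk 0
      rw [add_zero, Nat.cast_zero] at h10
      rcases hd with rfl | rfl | rfl
      · exact hBB
      · change v' (B + 1) + v' (B + 1) = v' (B + 1)
        rw [h10, add_zero]
      · change v' (B + 1) + v' (B + 1 + c) = v' 0
        rw [h10, hk, h00, zero_add]
    · obtain ⟨k, -, rfl⟩ := List.mem_map.1 hd
      change v' (B + 1 + k) + v' B = v' (B + 2 + k)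
      rw [show B + 2 + k = B + 1 + (k + 1) by ring, hk, hk, hBB]
      push_cast
      ring

open TH588.MX in
theorem primrec_sysM (m : ℕ) (S₀ : List ER.Con) (B : ℕ) :
    Primrec (fun c : ℕ => inst (sysM m (sysC S₀ B c))) := by
  refine primrec_inst.comp ?_
  have h1 : (fun c : ℕ => sysM m (sysC S₀ B c)) = fun c : ℕ => extm m ++
      ((sysC S₀ B c).map ER.Con.code).zipIdx.flatMap (fun q => conC q.1 q.2) := by
    funext c
    rw [sysM, toW_code]
  rw [h1]
  refine Primrec.list_append.comp (Primrec.const (extm m)) ?_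
  have h2 : Primrec (fun c : ℕ => (sysC S₀ B c).map ER.Con.code) := by
    have h3 : (fun c : ℕ => (sysC S₀ B c).map ER.Con.code) = fun c : ℕ =>
      S₀.map ER.Con.code ++ ([(0, B, 0, 0), (1, B + 1, B + 1, B + 1), (1, B + 1, B + 1 + c, 0)] ++
      (List.range c).map (fun k => (1, B + 1 + k, B, B + 2 + k))) :=
      funext fun c => map_code_sysC S₀ B c
    rw [h3]
    refine Primrec.list_append.comp (Primrec.const _) (Primrec.list_append.comp ?_ ?_)
    · refine Primrec.list_cons.comp (Primrec.const _) (Primrec.list_cons.comp (Primrec.const _)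
        (Primrec.list_cons.comp ?_ (Primrec.const [])))
      exact Primrec.pair (Primrec.const 1) (Primrec.pair (Primrec.const _)
        (Primrec.pair (Primrec.nat_add.comp (Primrec.const _) Primrec.id) (Primrec.const 0)))
    · refine Primrec.list_map Primrec.list_range ?_
      exact Primrec.pair (Primrec.const 1) (Primrec.pair
        (Primrec.nat_add.comp (Primrec.const _) Primrec.snd) (Primrec.pair (Primrec.const _)
        (Primrec.nat_add.comp (Primrec.const _) Primrec.snd)))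
  exact Primrec.list_flatMap (przipIdx h2) (primrec_conC.comp₂
    (Primrec.fst.comp₂ Primrec₂.right) (Primrec.snd.comp₂ Primrec₂.right))

end Pool.Agent.TH655.HM
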